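import Pool.Agent.Q8.CM.Defs

namespace Q8.CM

/-- `c m l` is the coefficient of `s^m` in `∏ (v.1 s + v.2)`. -/
def cf : ℕ → List (ℂ × ℂ) → ℂ
  | 0, [] => 1
  | _ + 1, [] => 0
  | 0, v :: l => v.2 * cf 0 l
  | m + 1, v :: l => v.1 * cf m l + v.2 * cf (m + 1) l

lemma cf_add (m : ℕ) (l l' : List (ℂ × ℂ)) (v w : ℂ × ℂ) :
    cf m (l ++ (v + w) :: l') = cf m (l ++ v :: l') + cf m (l ++ w :: l') := by
  induction l generalizing m with
  | nil => cases m <;> simp only [List.nil_append, cf, Prod.fst_add, Prod.snd_add] <;> ring
  | cons u l ih => cases m <;> simp only [List.cons_append, cf, ih] <;> ring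

lemma cf_smul (m : ℕ) (l l' : List (ℂ × ℂ)) (c : ℂ) (v : ℂ × ℂ) :
    cf m (l ++ (c • v) :: l') = c * cf m (l ++ v :: l') := by
  induction l generalizing m with
  | nil => cases m <;> simp only [List.nil_append, cf, Prod.smul_fst, Prod.smul_snd, smul_eq_mul] <;> ring
  | cons u l ih => cases m <;> simp only [List.cons_append, cf, ih] <;> ring

lemma cf_swap (m : ℕ) (l l' : List (ℂ × ℂ)) (v w : ℂ × ℂ) :
    cf m (l ++ v :: w :: l') = cf m (l ++ w :: v :: l') := by
  induction l generalizing m with
  | nil =>
    rcases m with _ | _ | m <;> simp only [List.nil_append, cf] <;> ring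
  | cons u l ih => cases m <;> simp only [List.cons_append, cf, ih]

lemma repl_cf (x : ℂ × ℂ) (m : ℕ) (l : List (ℂ × ℂ)) :
    repl (gl11.b01 x) (cf m) l = (x.1 - x.2) * (2 * m - l.length) * cf m l := by
  induction l generalizing m with
  | nil => cases m <;> simp [repl, cf]
  | cons v l ih =>
    have hb : gl11.b01 x v = ((x.1 - x.2) * v.1, (x.2 - x.1) * v.2) := rfl
    cases m with
    | zero =>
      have e : (fun k => cf 0 (v :: k)) = fun k => v.2 * cf 0 k := by funext k; rfl
      simp only [repl]
      rw [e, repl_smul, ih, hb]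
      simp only [cf, List.length_cons]
      push_cast
      ring
    | succ m =>
      have e : (fun k => cf (m + 1) (v :: k)) = fun k => v.1 * cf m k + v.2 * cf (m + 1) k := by
        funext k; rfl
      simp only [repl]
      rw [e, repl_add, repl_smul, repl_smul, ih, ih, hb]
      simp only [cf, List.length_cons]
      push_cast
      ring

/-- the sum over picks of one element with weight `v.2` -/
lemma pick_cf2 (m : ℕ) (l : List (ℂ × ℂ)) (a : ℂ) :
    pick (fun v k => a * v.2 * cf m k) l = a * (l.length - m) * cf m l := by
  induction l generalizing m a with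
  | nil => cases m <;> simp [pick, cf]
  | cons u l ih =>
    cases m with
    | zero =>
      have e : (fun (v : ℂ × ℂ) k => a * v.2 * cf 0 (u :: k))
          = fun v k => (a * u.2) * v.2 * cf 0 k := by
        funext v k; simp only [cf]; ring
      simp only [pick]
      rw [e, ih]
      simp only [cf, List.length_cons]
      push_cast
      ring
    | succ m =>
      have e : (fun (v : ℂ × ℂ) k => a * v.2 * cf (m + 1) (u :: k))
          = fun v k => (a * u.1) * v.2 * cf m k + (a * u.2) * v.2 * cf (m + 1) k := by
        funext v k; simp only [cf]; ring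
      simp only [pick]
      rw [e, pick_add, ih, ih]
      simp only [cf, List.length_cons]
      push_cast
      ring

lemma pick_cf1 (m : ℕ) (l : List (ℂ × ℂ)) (a : ℂ) :
    pick (fun v k => a * v.1 * cf m k) l = a * (m + 1) * cf (m + 1) l := by
  induction l generalizing m a with
  | nil => simp [pick, cf]
  | cons u l ih =>
    cases m with
    | zero =>
      have e : (fun (v : ℂ × ℂ) k => a * v.1 * cf 0 (u :: k))
          = fun v k => (a * u.2) * v.1 * cf 0 k := by
        funext v k; simp only [cf]; ring
      simp only [pick]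
      rw [e, ih]
      simp only [cf]
      push_cast
      ring
    | succ m =>
      have e : (fun (v : ℂ × ℂ) k => a * v.1 * cf (m + 1) (u :: k))
          = fun v k => (a * u.1) * v.1 * cf m k + (a * u.2) * v.1 * cf (m + 1) k := by
        funext v k; simp only [cf]; ring
      simp only [pick]
      rw [e, pick_add, ih, ih]
      simp only [cf]
      push_cast
      ring

/-- the sum over pairs -/
lemma pair_cf (m : ℕ) (l : List (ℂ × ℂ)) (a : ℂ) :
    pair (fun v w k => a * (v.1 * w.2 + w.1 * v.2) * cf m k) l
      = a * (m + 1) * (l.length - m - 1) * cf (m + 1) l := by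
  induction l generalizing m a with
  | nil => simp [pair, cf]
  | cons u l ih =>
    have e1 : (fun (w : ℂ × ℂ) k => a * (u.1 * w.2 + w.1 * u.2) * cf m k)
        = fun w k => (a * u.1) * w.2 * cf m k + (a * u.2) * w.1 * cf m k := by
      funext w k; ring
    cases m with
    | zero =>
      have e : (fun (v w : ℂ × ℂ) k => a * (v.1 * w.2 + w.1 * v.2) * cf 0 (u :: k))
          = fun v w k => (a * u.2) * (v.1 * w.2 + w.1 * v.2) * cf 0 k := by
        funext v w k; simp only [cf]; ring
      simp only [pair]
      rw [e1, e, pick_add, pick_cf1, pick_cf2, ih]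
      simp only [cf, List.length_cons]
      push_cast
      ring
    | succ m =>
      have e : (fun (v w : ℂ × ℂ) k => a * (v.1 * w.2 + w.1 * v.2) * cf (m + 1) (u :: k))
          = fun v w k => (a * u.1) * (v.1 * w.2 + w.1 * v.2) * cf m k
            + (a * u.2) * (v.1 * w.2 + w.1 * v.2) * cf (m + 1) k := by
        funext v w k; simp only [cf]; ring
      simp only [pair]
      rw [e1, e, pick_add, pick_cf1, pick_cf2, pair_add, ih, ih]
      simp only [cf, List.length_cons]
      push_cast
      ring

lemma cf_replicate1 (i m : ℕ) (l : List (ℂ × ℂ)) :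
    cf (i + m) (List.replicate i (1, 0) ++ l) = cf m l := by
  induction i with
  | zero => simp
  | succ i ih =>
    rw [List.replicate_succ, List.cons_append, show i + 1 + m = (i + m) + 1 by ring]
    simp only [cf, ih]
    ring

lemma cf_replicate0 (j : ℕ) : cf 0 (List.replicate j (0, 1)) = 1 := by
  induction j with
  | zero => simp [cf]
  | succ j ih => rw [List.replicate_succ]; simp only [cf, ih]; ring

lemma cf_XY (k j : ℕ) : cf k (List.replicate k (1, 0) ++ List.replicate j (0, 1)) = 1 := by
  have := cf_replicate1 k 0 (List.replicate j (0, 1))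
  rw [add_zero] at this
  rw [this, cf_replicate0]

lemma cf_of_gt (m : ℕ) (l : List (ℂ × ℂ)) (h : l.length < m) : cf m l = 0 := by
  induction l generalizing m with
  | nil =>
    cases m with
    | zero => simp at h
    | succ m => rfl
  | cons v l ih =>
    cases m with
    | zero => simp at h
    | succ m =>
      simp only [List.length_cons] at h
      simp only [cf]
      rw [ih m (by omega), ih (m + 1) (by omega)]
      ring

/-! ## Symmetric multilinear functions of weight zero -/

/-- symmetric multilinear -/
structure SM (S : List (ℂ × ℂ) → ℂ) : Prop where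
  add : ∀ l l' y y', S (l ++ (y + y') :: l') = S (l ++ y :: l') + S (l ++ y' :: l')
  smul : ∀ l l' (c : ℂ) y, S (l ++ (c • y) :: l') = c * S (l ++ y :: l')
  sym : ∀ l l' y y', S (l ++ y :: y' :: l') = S (l ++ y' :: y :: l')

lemma SM.perm {S : List (ℂ × ℂ) → ℂ} (h : SM S) {l l' : List (ℂ × ℂ)} (hp : l.Perm l') :
    ∀ pre, S (pre ++ l) = S (pre ++ l') := by
  induction hp with
  | nil => intro pre; rfl
  | cons x _ ih =>
    intro pre
    have := ih (pre ++ [x])
    simpa using this
  | swap x y l => intro pre; exact h.sym _ _ _ _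
  | trans _ _ ih1 ih2 => intro pre; rw [ih1, ih2]

lemma SM.perm' {S : List (ℂ × ℂ) → ℂ} (h : SM S) {l l' : List (ℂ × ℂ)} (hp : l.Perm l') :
    S l = S l' := by
  have := h.perm hp []
  simpa using this

/-- value on `X^i Y^j` -/
def sv (S : List (ℂ × ℂ) → ℂ) (i j : ℕ) : ℂ :=
  S (List.replicate i (1, 0) ++ List.replicate j (0, 1))

lemma SM.weight {S : List (ℂ × ℂ) → ℂ} (h : SM S) (i j : ℕ) (pre : List (ℂ × ℂ)) :
    repl (gl11.b01 (1, -1)) (fun m => S (pre ++ m))
      (List.replicate i (1, 0) ++ List.replicate j (0, 1))
      = (2 * i - 2 * j) * S (pre ++ (List.replicate i (1, 0) ++ List.replicate j (0, 1))) := by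
  have hX : gl11.b01 (1, -1) (1, 0) = (2 : ℂ) • ((1 : ℂ), (0 : ℂ)) := by
    have : gl11.b01 (1, -1) (1, 0) = (((1:ℂ) - (-1)) * 1, ((-1:ℂ) - 1) * 0) := rfl
    rw [this]; ext <;> simp <;> norm_num
  have hY : gl11.b01 (1, -1) (0, 1) = (-2 : ℂ) • ((0 : ℂ), (1 : ℂ)) := by
    have : gl11.b01 (1, -1) (0, 1) = (((1:ℂ) - (-1)) * 0, ((-1:ℂ) - 1) * 1) := rfl
    rw [this]; ext <;> simp <;> norm_num
  induction i generalizing pre with
  | zero =>
    induction j generalizing pre with
    | zero => simp [repl]
    | succ j ih =>
      have := ih (pre ++ [(0, 1)])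
      simp only [List.replicate_zero, List.nil_append, List.append_assoc, List.singleton_append]
        at this ⊢
      rw [List.replicate_succ]
      simp only [repl]
      rw [hY, h.smul, this]
      push_cast
      ring
  | succ i ih =>
    have := ih (pre ++ [(1, 0)])
    simp only [List.append_assoc, List.singleton_append] at this
    rw [List.replicate_succ, List.cons_append]
    simp only [repl]
    rw [hX, h.smul, this]
    push_cast
    ring

/-- if `S` has weight zero then `S = S(X^k Y^k) cf k` -/
lemma SM.expand {S : List (ℂ × ℂ) → ℂ} (h : SM S) (hw : ∀ i j, i ≠ j → sv S i j = 0)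
    (k : ℕ) : ∀ (l : List (ℂ × ℂ)) (i j : ℕ), i + j + l.length = 2 * k → i ≤ k →
    S (List.replicate i (1, 0) ++ (List.replicate j (0, 1) ++ l)) = sv S k k * cf (k - i) l := by
  intro l
  induction l with
  | nil =>
    intro i j hij hi
    rw [List.append_nil]
    by_cases hik : i = k
    · subst hik
      have : j = i := by simp at hij; omega
      subst this
      simp only [Nat.sub_self, cf]
      unfold sv
      ring
    · have h1 : sv S i j = 0 := hw i j (by simp at hij; omega)
      unfold sv at h1
      rw [h1]
      obtain ⟨m, hm⟩ : ∃ m, k - i = m + 1 := ⟨k - i - 1, by omega⟩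
      rw [hm]
      simp [cf]
  | cons v l ih =>
    intro i j hij hi
    simp only [List.length_cons] at hij
    have hv : v = v.1 • ((1 : ℂ), (0 : ℂ)) + v.2 • ((0 : ℂ), (1 : ℂ)) := by ext <;> simp
    have e0 : S (List.replicate i (1, 0) ++ (List.replicate j (0, 1) ++ v :: l)) =
        v.1 * S (List.replicate i (1, 0) ++ (List.replicate j (0, 1) ++ (1, 0) :: l))
        + v.2 * S (List.replicate i (1, 0) ++ (List.replicate j (0, 1) ++ (0, 1) :: l)) := by
      have h1 := h.add (List.replicate i (1, 0) ++ List.replicate j (0, 1)) l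
        (v.1 • ((1 : ℂ), (0 : ℂ))) (v.2 • ((0 : ℂ), (1 : ℂ)))
      rw [← hv, h.smul, h.smul] at h1
      simpa only [List.append_assoc] using h1
    have e1 : S (List.replicate i (1, 0) ++ (List.replicate j (0, 1) ++ (1, 0) :: l))
        = S (List.replicate (i + 1) (1, 0) ++ (List.replicate j (0, 1) ++ l)) := by
      apply h.perm'
      rw [List.replicate_succ']
      rw [List.append_assoc]
      apply List.Perm.append_left
      exact List.perm_middle
    have e2 : S (List.replicate i (1, 0) ++ (List.replicate j (0, 1) ++ (0, 1) :: l))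
        = S (List.replicate i (1, 0) ++ (List.replicate (j + 1) (0, 1) ++ l)) := by
      rw [List.replicate_succ']
      simp
    rw [e0, e1, e2, ih i (j + 1) (by omega) hi]
    by_cases hik : i = k
    · subst hik
      have h3 : S (List.replicate (i + 1) (1, 0) ++ (List.replicate j (0, 1) ++ l)) = 0 ∨ True :=
        Or.inr trivial
      -- all terms have too many `X`
      have key : ∀ (l : List (ℂ × ℂ)) (a b : ℂ × ℂ → ℂ) (i' j' : ℕ), i < i' →
          i' + j' + l.length = 2 * i →
          S (List.replicate i' (1, 0) ++ (List.replicate j' (0, 1) ++ l)) = 0 := by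
        intro l
        induction l with
        | nil =>
          intro _ _ i' j' hi' hs
          rw [List.append_nil]
          exact hw i' j' (by simp at hs; omega)
        | cons u l ih' =>
          intro a b i' j' hi' hs
          simp only [List.length_cons] at hs
          have hu : u = u.1 • ((1 : ℂ), (0 : ℂ)) + u.2 • ((0 : ℂ), (1 : ℂ)) := by ext <;> simp
          have h1 := h.add (List.replicate i' (1, 0) ++ List.replicate j' (0, 1)) l
            (u.1 • ((1 : ℂ), (0 : ℂ))) (u.2 • ((0 : ℂ), (1 : ℂ)))
          rw [← hu, h.smul, h.smul] at h1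
          simp only [List.append_assoc] at h1
          rw [h1]
          have e1 : S (List.replicate i' (1, 0) ++ (List.replicate j' (0, 1) ++ (1, 0) :: l))
              = S (List.replicate (i' + 1) (1, 0) ++ (List.replicate j' (0, 1) ++ l)) := by
            apply h.perm'
            rw [List.replicate_succ']
            rw [List.append_assoc]
            apply List.Perm.append_left
            exact List.perm_middle
          have e2 : S (List.replicate i' (1, 0) ++ (List.replicate j' (0, 1) ++ (0, 1) :: l))
              = S (List.replicate i' (1, 0) ++ (List.replicate (j' + 1) (0, 1) ++ l)) := by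
            rw [List.replicate_succ']
            simp
          rw [e1, e2, ih' a b (i' + 1) j' (by omega) (by omega),
            ih' a b i' (j' + 1) hi' (by omega)]
          ring
      rw [key l (fun _ => 0) (fun _ => 0) (i + 1) j (by omega) (by omega)]
      simp only [Nat.sub_self, cf]
      ring
    · obtain ⟨m, hm⟩ : ∃ m, k - i = m + 1 := ⟨k - i - 1, by omega⟩
      rw [ih (i + 1) j (by omega) (by omega), hm, show k - (i + 1) = m by omega]
      simp only [cf]
      ring

/-- odd length: zero -/
lemma SM.odd {S : List (ℂ × ℂ) → ℂ} (h : SM S) (hw : ∀ i j, i ≠ j → sv S i j = 0)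
    (n : ℕ) (hn : Odd n) : ∀ (l : List (ℂ × ℂ)) (i j : ℕ), i + j + l.length = n →
    S (List.replicate i (1, 0) ++ (List.replicate j (0, 1) ++ l)) = 0 := by
  intro l
  induction l with
  | nil =>
    intro i j hij
    rw [List.append_nil]
    refine hw i j ?_
    rintro rfl
    simp only [List.length_nil, add_zero] at hij
    rw [← hij] at hn
    exact (Nat.not_odd_iff_even.mpr ⟨i, rfl⟩) hn
  | cons u l ih' =>
    intro i' j' hs
    simp only [List.length_cons] at hs
    have hu : u = u.1 • ((1 : ℂ), (0 : ℂ)) + u.2 • ((0 : ℂ), (1 : ℂ)) := by ext <;> simp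
    have h1 := h.add (List.replicate i' (1, 0) ++ List.replicate j' (0, 1)) l
      (u.1 • ((1 : ℂ), (0 : ℂ))) (u.2 • ((0 : ℂ), (1 : ℂ)))
    rw [← hu, h.smul, h.smul] at h1
    simp only [List.append_assoc] at h1
    rw [h1]
    have e1 : S (List.replicate i' (1, 0) ++ (List.replicate j' (0, 1) ++ (1, 0) :: l))
        = S (List.replicate (i' + 1) (1, 0) ++ (List.replicate j' (0, 1) ++ l)) := by
      apply h.perm'
      rw [List.replicate_succ']
      rw [List.append_assoc]
      apply List.Perm.append_left
      exact List.perm_middle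
    have e2 : S (List.replicate i' (1, 0) ++ (List.replicate j' (0, 1) ++ (0, 1) :: l))
        = S (List.replicate i' (1, 0) ++ (List.replicate (j' + 1) (0, 1) ++ l)) := by
      rw [List.replicate_succ']
      simp
    rw [e1, e2, ih' (i' + 1) j' (by omega), ih' i' (j' + 1) (by omega)]
    ring

end Q8.CM
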