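import Mathlib

namespace Q8.CM

/-- Brackets on an even space `g0` and an odd space `g1`. -/
structure Brackets (g0 g1 : Type*) where
  /-- even-even bracket -/
  b00 : g0 → g0 → g0
  /-- even-odd bracket -/
  b01 : g0 → g1 → g1
  /-- odd-odd bracket -/
  b11 : g1 → g1 → g0

/-- `ℂ`-bilinear maps -/
def Bilin {A B C : Type*} [AddCommGroup A] [Module ℂ A] [AddCommGroup B] [Module ℂ B]
    [AddCommGroup C] [Module ℂ C] (f : A → B → C) : Prop :=
  (∀ x x' y, f (x + x') y = f x y + f x' y) ∧ (∀ x y y', f x (y + y') = f x y + f x y') ∧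
  (∀ (c : ℂ) x y, f (c • x) y = c • f x y) ∧ ∀ (c : ℂ) x y, f x (c • y) = c • f x y

/-- A Lie superalgebra over `ℂ` with even part `g0` and odd part `g1`. -/
structure IsLieSuperalgebra {g0 g1 : Type*} [AddCommGroup g0] [Module ℂ g0]
    [AddCommGroup g1] [Module ℂ g1] (g : Brackets g0 g1) : Prop where
  bilin00 : Bilin g.b00
  bilin01 : Bilin g.b01
  bilin11 : Bilin g.b11
  alt : ∀ x, g.b00 x x = 0
  symm : ∀ v w, g.b11 v w = g.b11 w v
  jac000 : ∀ x y z, g.b00 x (g.b00 y z) = g.b00 (g.b00 x y) z + g.b00 y (g.b00 x z)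
  jac001 : ∀ x y v, g.b01 (g.b00 x y) v = g.b01 x (g.b01 y v) - g.b01 y (g.b01 x v)
  jac011 : ∀ x v w, g.b00 x (g.b11 v w) = g.b11 (g.b01 x v) w + g.b11 v (g.b01 x w)
  jac111 : ∀ u v w, g.b01 (g.b11 u v) w + g.b01 (g.b11 v w) u + g.b01 (g.b11 w u) v = 0

section sums
variable {α : Type*}

/-- `∑ᵢ G(lᵢ, l without lᵢ)` -/
def pick : (α → List α → ℂ) → List α → ℂ
  | _, [] => 0
  | G, a :: l => G a l + pick (fun b m => G b (a :: m)) l

/-- `∑ᵢ (-1)ⁱ G(lᵢ, l without lᵢ)`, `i = 0, 1, …` -/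
def pickAlt : (α → List α → ℂ) → List α → ℂ
  | _, [] => 0
  | G, a :: l => G a l - pickAlt (fun b m => G b (a :: m)) l

/-- `∑_{i<j} F(lᵢ, lⱼ, l without lᵢ, lⱼ)` -/
def pair : (α → α → List α → ℂ) → List α → ℂ
  | _, [] => 0
  | F, a :: l => pick (fun b m => F a b m) l + pair (fun b c m => F b c (a :: m)) l

/-- `∑_{i<j} (-1)^{i+j} F(lᵢ, lⱼ, l without lᵢ, lⱼ)` -/
def pairAlt : (α → α → List α → ℂ) → List α → ℂ
  | _, [] => 0
  | F, a :: l => pairAlt (fun b c m => F b c (a :: m)) l - pickAlt (fun b m => F a b m) l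

/-- `∑ᵢ S(l with lᵢ replaced by T lᵢ)` -/
def repl (T : α → α) : (List α → ℂ) → List α → ℂ
  | _, [] => 0
  | S, a :: l => S (T a :: l) + repl T (fun m => S (a :: m)) l

lemma pick_add (G G' : α → List α → ℂ) (l : List α) :
    pick (fun a m => G a m + G' a m) l = pick G l + pick G' l := by
  induction l generalizing G G' with
  | nil => simp [pick]
  | cons a l ih => simp only [pick]; rw [ih]; ring

lemma pick_smul (c : ℂ) (G : α → List α → ℂ) (l : List α) :
    pick (fun a m => c * G a m) l = c * pick G l := by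
  induction l generalizing G with
  | nil => simp [pick]
  | cons a l ih => simp only [pick]; rw [ih]; ring

lemma pickAlt_add (G G' : α → List α → ℂ) (l : List α) :
    pickAlt (fun a m => G a m + G' a m) l = pickAlt G l + pickAlt G' l := by
  induction l generalizing G G' with
  | nil => simp [pickAlt]
  | cons a l ih => simp only [pickAlt]; rw [ih]; ring

lemma pickAlt_smul (c : ℂ) (G : α → List α → ℂ) (l : List α) :
    pickAlt (fun a m => c * G a m) l = c * pickAlt G l := by
  induction l generalizing G with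
  | nil => simp [pickAlt]
  | cons a l ih => simp only [pickAlt]; rw [ih]; ring

lemma pair_add (F F' : α → α → List α → ℂ) (l : List α) :
    pair (fun a b m => F a b m + F' a b m) l = pair F l + pair F' l := by
  induction l generalizing F F' with
  | nil => simp [pair]
  | cons a l ih => simp only [pair]; rw [ih, pick_add]; ring

lemma pair_smul (c : ℂ) (F : α → α → List α → ℂ) (l : List α) :
    pair (fun a b m => c * F a b m) l = c * pair F l := by
  induction l generalizing F with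
  | nil => simp [pair]
  | cons a l ih => simp only [pair]; rw [ih, pick_smul]; ring

lemma pairAlt_add (F F' : α → α → List α → ℂ) (l : List α) :
    pairAlt (fun a b m => F a b m + F' a b m) l = pairAlt F l + pairAlt F' l := by
  induction l generalizing F F' with
  | nil => simp [pairAlt]
  | cons a l ih => simp only [pairAlt]; rw [ih, pickAlt_add]; ring

lemma pairAlt_smul (c : ℂ) (F : α → α → List α → ℂ) (l : List α) :
    pairAlt (fun a b m => c * F a b m) l = c * pairAlt F l := by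
  induction l generalizing F with
  | nil => simp [pairAlt]
  | cons a l ih => simp only [pairAlt]; rw [ih, pickAlt_smul]; ring

lemma repl_add (T : α → α) (S S' : List α → ℂ) (l : List α) :
    repl T (fun m => S m + S' m) l = repl T S l + repl T S' l := by
  induction l generalizing S S' with
  | nil => simp [repl]
  | cons a l ih => simp only [repl]; rw [ih]; ring

lemma repl_smul (T : α → α) (c : ℂ) (S : List α → ℂ) (l : List α) :
    repl T (fun m => c * S m) l = c * repl T S l := by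
  induction l generalizing S with
  | nil => simp [repl]
  | cons a l ih => simp only [repl]; rw [ih]; ring

lemma repl_zero (T : α → α) (l : List α) : repl T (fun _ => 0) l = 0 := by
  induction l with
  | nil => rfl
  | cons a l ih => simp only [repl]; rw [ih]; ring

end sums

section general
variable {g0 g1 : Type*}

/-- Functions of a list of even and a list of odd elements. -/
abbrev Fn (g0 g1 : Type*) := List g0 → List g1 → ℂ

/-- The coboundary operator for trivial coefficients. -/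
noncomputable def d (g : Brackets g0 g1) (φ : Fn g0 g1) : Fn g0 g1 := fun xs ys =>
    pairAlt (fun x x' l => φ (g.b00 x x' :: l) ys) xs
      - pickAlt (fun x l => repl (g.b01 x) (φ l) ys) xs
      - pair (fun y y' l => φ (g.b11 y y' :: xs) l) ys

variable [AddCommGroup g0] [Module ℂ g0] [AddCommGroup g1] [Module ℂ g1] (g : Brackets g0 g1)

omit [AddCommGroup g0] [Module ℂ g0] [AddCommGroup g1] [Module ℂ g1] in
lemma d_smul (c : ℂ) (φ : Fn g0 g1) : d g (c • φ) = c • d g φ := by
  funext xs ys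
  show d g (c • φ) xs ys = c * d g φ xs ys
  unfold d
  simp only [Pi.smul_apply, smul_eq_mul]
  rw [pairAlt_smul, pair_smul]
  have : (fun (x : g0) (l : List g0) => repl (g.b01 x) (c • φ l) ys)
      = fun x l => c * repl (g.b01 x) (φ l) ys := by
    funext x l
    exact repl_smul _ _ _ _
  rw [this, pickAlt_smul]
  ring

omit [AddCommGroup g0] [Module ℂ g0] [AddCommGroup g1] [Module ℂ g1] in
lemma d_zero : d g (0 : Fn g0 g1) = 0 := by
  have := d_smul g 0 (0 : Fn g0 g1)
  simpa using this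

omit [AddCommGroup g0] [Module ℂ g0] [AddCommGroup g1] [Module ℂ g1] in
lemma d_apply (φ : Fn g0 g1) (xs : List g0) (ys : List g1) : d g φ xs ys =
    pairAlt (fun x x' l => φ (g.b00 x x' :: l) ys) xs
      - pickAlt (fun x l => repl (g.b01 x) (φ l) ys) xs
      - pair (fun y y' l => φ (g.b11 y y' :: xs) l) ys := rfl

/-- Relative cochains of degree `n` with respect to `a`: the `a`-invariant elements of
`⨁_{p+q=n} Hom(Λ^q(g0/a) ⊗ S^p(g1), ℂ)`. -/
structure IsCochain (a : Submodule ℂ g0) (n : ℕ) (φ : Fn g0 g1) : Prop where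
  supp : ∀ xs ys, xs.length + ys.length ≠ n → φ xs ys = 0
  add0 : ∀ l l' x x' ys, φ (l ++ (x + x') :: l') ys = φ (l ++ x :: l') ys + φ (l ++ x' :: l') ys
  smul0 : ∀ l l' (c : ℂ) x ys, φ (l ++ (c • x) :: l') ys = c * φ (l ++ x :: l') ys
  add1 : ∀ xs l l' y y', φ xs (l ++ (y + y') :: l') = φ xs (l ++ y :: l') + φ xs (l ++ y' :: l')
  smul1 : ∀ xs l l' (c : ℂ) y, φ xs (l ++ (c • y) :: l') = c * φ xs (l ++ y :: l')
  alt : ∀ l l' x x' ys, φ (l ++ x :: x' :: l') ys = - φ (l ++ x' :: x :: l') ys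
  sym : ∀ xs l l' y y', φ xs (l ++ y :: y' :: l') = φ xs (l ++ y' :: y :: l')
  horizontal : ∀ x ∈ a, ∀ l l' ys, φ (l ++ x :: l') ys = 0
  invariant : ∀ x ∈ a, ∀ xs ys, repl (g.b00 x) (fun l => φ l ys) xs + repl (g.b01 x) (φ xs) ys = 0

lemma IsCochain.smul {a : Submodule ℂ g0} {n : ℕ} {φ : Fn g0 g1} (h : IsCochain g a n φ) (c : ℂ) :
    IsCochain g a n (c • φ) := by
  constructor
  · intro xs ys hn
    simp [h.supp xs ys hn]
  · intros; simp only [Pi.smul_apply, smul_eq_mul]; rw [h.add0]; ring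
  · intros; simp only [Pi.smul_apply, smul_eq_mul]; rw [h.smul0]; ring
  · intros; simp only [Pi.smul_apply, smul_eq_mul]; rw [h.add1]; ring
  · intros; simp only [Pi.smul_apply, smul_eq_mul]; rw [h.smul1]; ring
  · intros; simp only [Pi.smul_apply, smul_eq_mul]; rw [h.alt]; ring
  · intros; simp only [Pi.smul_apply, smul_eq_mul]; rw [h.sym]
  · intro x hx l l' ys; simp only [Pi.smul_apply, smul_eq_mul]; rw [h.horizontal x hx]; ring
  · intro x hx xs ys
    have e1 : repl (g.b00 x) (fun l => (c • φ) l ys) xs =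
        c * repl (g.b00 x) (fun l => φ l ys) xs := repl_smul _ _ _ _
    have e2 : repl (g.b01 x) ((c • φ) xs) ys = c * repl (g.b01 x) (φ xs) ys :=
      repl_smul _ _ _ _
    rw [e1, e2]
    linear_combination c * h.invariant x hx xs ys

/-- Relative cocycles of degree `n`. -/
def IsCocycle (a : Submodule ℂ g0) (n : ℕ) (φ : Fn g0 g1) : Prop :=
  IsCochain g a n φ ∧ ∀ xs ys, d g φ xs ys = 0

/-- Relative coboundaries of degree `n`. -/
def IsCoboundary (a : Submodule ℂ g0) (n : ℕ) (φ : Fn g0 g1) : Prop :=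
  φ = 0 ∨ ∃ m ψ, n = m + 1 ∧ IsCochain g a m ψ ∧ ∀ xs ys, d g ψ xs ys = φ xs ys

/-- `H^n(g,a;ℂ) = 0`. -/
def CohomologyVanishes (a : Submodule ℂ g0) (n : ℕ) : Prop :=
  ∀ φ, IsCocycle g a n φ → IsCoboundary g a n φ

/-- `H^n(g,a;ℂ)` is one-dimensional. -/
def CohomologyIsLine (a : Submodule ℂ g0) (n : ℕ) : Prop :=
  ∃ φ₀, IsCocycle g a n φ₀ ∧ ¬ IsCoboundary g a n φ₀ ∧
    ∀ φ, IsCocycle g a n φ → ∃ c : ℂ, IsCoboundary g a n (φ - c • φ₀)

/-- `F^p C^n(g,a;ℂ)`: cochains that vanish whenever at least `n-p+1` arguments are even. -/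
def Fil (a : Submodule ℂ g0) (p n : ℕ) (φ : Fn g0 g1) : Prop :=
  IsCochain g a n φ ∧ ∀ xs ys, n + 1 ≤ xs.length + p → φ xs ys = 0

/-- `Z_r^p` in total degree `n`: elements of `F^p C^n` whose coboundary is in `F^{p+r}`. -/
def Zr (a : Submodule ℂ g0) (r p n : ℕ) (φ : Fn g0 g1) : Prop :=
  Fil g a p n φ ∧ Fil g a (p + r) (n + 1) (d g φ)

/-- The spectral sequence of the filtration collapses at `E_2`: each differential
`d_r : E_r^p → E_r^{p+r}`, `r ≥ 2`, is zero, where
`E_r^p = Z_r^p / (Z_{r-1}^{p+1} + d Z_{r-1}^{p-r+1})` and `d_r` is induced by `d`. -/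
def CollapsesAtE2 (a : Submodule ℂ g0) : Prop :=
  ∀ r p n : ℕ, 2 ≤ r → ∀ φ, Zr g a r p n φ →
    ∃ α β, Zr g a (r - 1) (p + r + 1) (n + 1) α ∧ Zr g a (r - 1) (p + 1) n β ∧
      ∀ xs ys, d g φ xs ys = α xs ys + d g β xs ys

/-- A sufficient concrete form of being classical: the even part is the Lie algebra of the torus
`(ℂˣ)^r`, acting on the odd part through characters with integral weights `w`, and the
differential of this action is the adjoint action. -/
def IsToral : Prop :=
  ∃ (r s : ℕ) (e : g0 ≃ₗ[ℂ] (Fin r → ℂ)) (b : Module.Basis (Fin s) ℂ g1) (w : Fin s → Fin r → ℤ),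
    (∀ x x', g.b00 x x' = 0) ∧ ∀ x i, g.b01 x (b i) = (∑ j, (w i j : ℂ) * e x j) • b i

end general

/-! ## The Lie superalgebra `gl(1|1)` -/

/-- `gl(1|1)`: the matrix `[[a, x], [y, b]]` has even part `(a, b)` and odd part `(x, y)`. -/
noncomputable def gl11 : Brackets (ℂ × ℂ) (ℂ × ℂ) where
  b00 := fun _ _ => 0
  b01 := fun a v => ((a.1 - a.2) * v.1, (a.2 - a.1) * v.2)
  b11 := fun v w => (v.1 * w.2 + w.1 * v.2, v.2 * w.1 + w.2 * v.1)

lemma gl11_super : IsLieSuperalgebra gl11 where
  bilin00 := ⟨by intros; simp [gl11], by intros; simp [gl11], by intros; simp [gl11],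
    by intros; simp [gl11]⟩
  bilin01 := by
    refine ⟨?_, ?_, ?_, ?_⟩ <;> intros <;> ext <;> simp [gl11] <;> ring
  bilin11 := by
    refine ⟨?_, ?_, ?_, ?_⟩ <;> intros <;> ext <;> simp [gl11] <;> ring
  alt := by intros; rfl
  symm := by intros; ext <;> simp [gl11] <;> ring
  jac000 := by intros; simp [gl11]
  jac001 := by intros; ext <;> simp [gl11] <;> ring
  jac011 := by intros; ext <;> simp [gl11] <;> ring
  jac111 := by intros; ext <;> simp [gl11] <;> ring

/-- The line spanned by `E₁₁ - E₂₂`. -/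
noncomputable def aa : Submodule ℂ (ℂ × ℂ) := Submodule.span ℂ {((1 : ℂ), (-1 : ℂ))}

end Q8.CM
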