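import Pool.Agent.Q8.CM.Calc

namespace Q8.CM

lemma hmem : ((1 : ℂ), (-1 : ℂ)) ∈ aa := Submodule.mem_span_singleton_self _

lemma mem_aa {x : ℂ × ℂ} (hx : x ∈ aa) : x.1 + x.2 = 0 := by
  obtain ⟨c, rfl⟩ := Submodule.mem_span_singleton.mp hx
  simp

/-- the odd-degree cochain `e u^k` -/
noncomputable def ek (k : ℕ) : Fn (ℂ × ℂ) (ℂ × ℂ) := fun xs ys =>
  match xs with
  | [x] => if ys.length = 2 * k then (x.1 + x.2) * cf k ys else 0
  | _ => 0

/-- the even-degree cochain `u^k` -/
noncomputable def uk (k : ℕ) : Fn (ℂ × ℂ) (ℂ × ℂ) := fun xs ys =>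
  match xs with
  | [] => if ys.length = 2 * k then cf k ys else 0
  | _ => 0

lemma ek_one (k : ℕ) (x : ℂ × ℂ) (ys : List (ℂ × ℂ)) :
    ek k [x] ys = if ys.length = 2 * k then (x.1 + x.2) * cf k ys else 0 := rfl

lemma ek_nil (k : ℕ) (ys : List (ℂ × ℂ)) : ek k [] ys = 0 := rfl

lemma ek_two (k : ℕ) (x x' : ℂ × ℂ) (xs ys : List (ℂ × ℂ)) : ek k (x :: x' :: xs) ys = 0 := rfl

lemma ek_len (k : ℕ) (xs ys : List (ℂ × ℂ)) (h : xs.length ≠ 1) : ek k xs ys = 0 := by
  rcases xs with _ | ⟨x, _ | ⟨x', xs⟩⟩
  · rfl
  · exact absurd rfl h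
  · rfl

lemma uk_nil (k : ℕ) (ys : List (ℂ × ℂ)) :
    uk k [] ys = if ys.length = 2 * k then cf k ys else 0 := rfl

lemma uk_cons (k : ℕ) (x : ℂ × ℂ) (xs ys : List (ℂ × ℂ)) : uk k (x :: xs) ys = 0 := rfl

lemma ek_cochain (k : ℕ) : IsCochain gl11 aa (2 * k + 1) (ek k) := by
  constructor
  · intro xs ys h
    rcases xs with _ | ⟨x, _ | ⟨x', xs⟩⟩
    · rfl
    · rw [ek_one, if_neg]
      intro h'
      apply h
      simp only [List.length_cons, List.length_nil, h']
      ring
    · rfl
  · intro l l' x x' ys
    rcases l with _ | ⟨u, l⟩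
    · rcases l' with _ | ⟨w, l'⟩
      · simp only [List.nil_append, ek_one, Prod.fst_add, Prod.snd_add]
        split_ifs <;> ring
      · simp only [List.nil_append, ek_two]; ring
    · rcases l with _ | ⟨w, l⟩ <;> simp only [List.cons_append, List.nil_append, ek_two] <;> ring
  · intro l l' c x ys
    rcases l with _ | ⟨u, l⟩
    · rcases l' with _ | ⟨w, l'⟩
      · simp only [List.nil_append, ek_one, Prod.smul_fst, Prod.smul_snd, smul_eq_mul]
        split_ifs <;> ring
      · simp only [List.nil_append, ek_two]; ring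
    · rcases l with _ | ⟨w, l⟩ <;> simp only [List.cons_append, List.nil_append, ek_two] <;> ring
  · intro xs l l' y y'
    rcases xs with _ | ⟨x, _ | ⟨x', xs⟩⟩
    · simp only [ek_nil]; ring
    · simp only [ek_one, List.length_append, List.length_cons, cf_add]
      split_ifs <;> ring
    · simp only [ek_two]; ring
  · intro xs l l' c y
    rcases xs with _ | ⟨x, _ | ⟨x', xs⟩⟩
    · simp only [ek_nil]; ring
    · simp only [ek_one, List.length_append, List.length_cons, cf_smul]
      split_ifs <;> ring
    · simp only [ek_two]; ring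
  · intro l l' x x' ys
    rcases l with _ | ⟨u, l⟩
    · simp only [List.nil_append, ek_two]; ring
    · rcases l with _ | ⟨w, l⟩ <;> simp only [List.cons_append, List.nil_append, ek_two] <;> ring
  · intro xs l l' y y'
    rcases xs with _ | ⟨x, _ | ⟨x', xs⟩⟩
    · simp only [ek_nil]
    · simp only [ek_one, List.length_append, List.length_cons, cf_swap]
    · simp only [ek_two]
  · intro x hx l l' ys
    rcases l with _ | ⟨u, l⟩
    · rcases l' with _ | ⟨w, l'⟩
      · simp only [List.nil_append, ek_one, mem_aa hx]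
        split_ifs <;> ring
      · simp only [List.nil_append, ek_two]
    · rcases l with _ | ⟨w, l⟩ <;> simp only [List.cons_append, List.nil_append, ek_two]
  · intro x hx xs ys
    have h00 : ∀ (x y : ℂ × ℂ), gl11.b00 x y = 0 := fun _ _ => rfl
    rcases xs with _ | ⟨z, _ | ⟨x', xs⟩⟩
    · have e : ek k [] = fun _ => 0 := rfl
      simp only [repl]
      rw [e, repl_zero]; ring
    · simp only [repl, ek_one]
      rw [h00]
      by_cases hl : ys.length = 2 * k
      · have e : repl (gl11.b01 x) (ek k [z]) ys = repl (gl11.b01 x)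
            (fun m => (z.1 + z.2) * cf k m) ys := by
          have gen : ∀ (l : List (ℂ × ℂ)) (S S' : List (ℂ × ℂ) → ℂ)
              (_ : ∀ m, m.length = l.length → S m = S' m),
              repl (gl11.b01 x) S l = repl (gl11.b01 x) S' l := by
            intro l
            induction l with
            | nil => intros; rfl
            | cons a l ih =>
              intro S S' h
              simp only [repl]
              rw [h (gl11.b01 x a :: l) rfl, ih _ _ (fun m hm => h (a :: m) (by simp [hm]))]
          apply gen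
          intro m hm
          rw [ek_one, if_pos (by omega)]
        rw [e, repl_smul, repl_cf, hl]
        simp
      · have e : repl (gl11.b01 x) (ek k [z]) ys = 0 := by
          have gen : ∀ (l : List (ℂ × ℂ)) (S : List (ℂ × ℂ) → ℂ)
              (_ : ∀ m, m.length = l.length → S m = 0),
              repl (gl11.b01 x) S l = 0 := by
            intro l
            induction l with
            | nil => intros; rfl
            | cons a l ih =>
              intro S h
              simp only [repl]
              rw [h (gl11.b01 x a :: l) rfl, ih _ (fun m hm => h (a :: m) (by simp [hm]))]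
              ring
          apply gen
          intro m hm
          rw [ek_one, if_neg (by omega)]
        rw [e]
        simp [hl]
    · have e : ek k (z :: x' :: xs) = fun _ => 0 := rfl
      have e2 : repl (gl11.b00 x) (fun l => ek k l ys) (z :: x' :: xs) = 0 := by
        have gen : ∀ (l : List (ℂ × ℂ)) (S : List (ℂ × ℂ) → ℂ)
            (_ : ∀ m, m.length = l.length → S m = 0),
            repl (gl11.b00 x) S l = 0 := by
          intro l
          induction l with
          | nil => intros; rfl
          | cons a l ih =>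
            intro S h
            simp only [repl]
            rw [h (gl11.b00 x a :: l) rfl, ih _ (fun m hm => h (a :: m) (by simp [hm]))]
            ring
        apply gen
        intro m hm
        apply ek_len
        simp only [List.length_cons] at hm
        omega
      rw [e2, e, repl_zero]
      ring

section congr
variable {α : Type*}

lemma pick_congr {G G' : α → List α → ℂ} (l : List α)
    (h : ∀ a m, m.length + 1 = l.length → G a m = G' a m) : pick G l = pick G' l := by
  induction l generalizing G G' with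
  | nil => rfl
  | cons a l ih =>
    simp only [pick]
    rw [h a l rfl, ih]
    intro b m hm
    exact h b (a :: m) (by simp [hm])

lemma pickAlt_congr {G G' : α → List α → ℂ} (l : List α)
    (h : ∀ a m, m.length + 1 = l.length → G a m = G' a m) : pickAlt G l = pickAlt G' l := by
  induction l generalizing G G' with
  | nil => rfl
  | cons a l ih =>
    simp only [pickAlt]
    rw [h a l rfl, ih]
    intro b m hm
    exact h b (a :: m) (by simp [hm])

lemma pair_congr {F F' : α → α → List α → ℂ} (l : List α)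
    (h : ∀ a b m, m.length + 2 = l.length → F a b m = F' a b m) : pair F l = pair F' l := by
  induction l generalizing F F' with
  | nil => rfl
  | cons a l ih =>
    simp only [pair]
    rw [ih (fun b c m hm => h b c (a :: m) (by simp only [List.length_cons]; omega))]
    rw [pick_congr l (fun b m hm => h a b m (by simp only [List.length_cons]; omega))]

lemma pairAlt_congr {F F' : α → α → List α → ℂ} (l : List α)
    (h : ∀ a b m, m.length + 2 = l.length → F a b m = F' a b m) :
    pairAlt F l = pairAlt F' l := by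
  induction l generalizing F F' with
  | nil => rfl
  | cons a l ih =>
    simp only [pairAlt]
    rw [ih (fun b c m hm => h b c (a :: m) (by simp only [List.length_cons]; omega))]
    rw [pickAlt_congr l (fun b m hm => h a b m (by simp only [List.length_cons]; omega))]

lemma pick_zero (l : List α) : pick (fun _ _ => 0) l = 0 := by
  induction l with
  | nil => rfl
  | cons a l ih => simp only [pick]; rw [ih]; ring

lemma pickAlt_zero (l : List α) : pickAlt (fun _ _ => 0) l = 0 := by
  induction l with
  | nil => rfl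
  | cons a l ih => simp only [pickAlt]; rw [ih]; ring

lemma pair_zero (l : List α) : pair (fun _ _ _ => 0) l = 0 := by
  induction l with
  | nil => rfl
  | cons a l ih => simp only [pair]; rw [ih, pick_zero]; ring

lemma pairAlt_zero (l : List α) : pairAlt (fun _ _ _ => 0) l = 0 := by
  induction l with
  | nil => rfl
  | cons a l ih => simp only [pairAlt]; rw [ih, pickAlt_zero]; ring

lemma repl_congr (T : α → α) {S S' : List α → ℂ} (l : List α)
    (h : ∀ m, m.length = l.length → S m = S' m) : repl T S l = repl T S' l := by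
  induction l generalizing S S' with
  | nil => rfl
  | cons a l ih =>
    simp only [repl]
    rw [h (T a :: l) rfl, ih (fun m hm => h (a :: m) (by simp [hm]))]

end congr

lemma b11_sum (y y' : ℂ × ℂ) :
    (gl11.b11 y y').1 + (gl11.b11 y y').2 = 2 * (y.1 * y'.2 + y'.1 * y.2) := by
  have h : gl11.b11 y y' = (y.1 * y'.2 + y'.1 * y.2, y.2 * y'.1 + y'.2 * y.1) := rfl
  rw [h]
  ring

/-- `d (e u^k) = -2 (k+1)² u^{k+1}` -/
lemma d_ek (k : ℕ) : d gl11 (ek k) = (-2 * ((k : ℂ) + 1) ^ 2) • uk (k + 1) := by
  funext xs ys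
  have h00 : ∀ (x y : ℂ × ℂ), gl11.b00 x y = 0 := fun _ _ => rfl
  rw [d_apply]
  show _ = (-2 * ((k : ℂ) + 1) ^ 2) * uk (k + 1) xs ys
  rcases xs with _ | ⟨x, _ | ⟨x', _ | ⟨x'', xs⟩⟩⟩
  · simp only [pairAlt, pickAlt, uk_nil]
    by_cases hl : ys.length = 2 * (k + 1)
    · rw [pair_congr (F' := fun v w m => 2 * (v.1 * w.2 + w.1 * v.2) * cf k m) ys]
      · rw [pair_cf, hl, if_pos rfl]
        push_cast
        ring
      · intro a b m hm
        rw [ek_one, if_pos (by omega), b11_sum]
    · rw [pair_congr (F' := fun v w m => 0) ys]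
      · rw [pair_zero, if_neg hl]
        ring
      · intro a b m hm
        rw [ek_one, if_neg (by omega)]
  · rw [uk_cons]
    simp only [pairAlt, pickAlt]
    have e : ek k [] = fun _ => 0 := rfl
    rw [e, repl_zero, pair_congr (F' := fun _ _ _ => 0), pair_zero]
    · ring
    · intro a b m hm
      rfl
  · rw [uk_cons]
    simp only [pairAlt, pickAlt]
    rw [pair_congr (F' := fun _ _ _ => 0), pair_zero]
    · rw [h00, ek_one]
      by_cases hl : ys.length = 2 * k
      · have e : ∀ z x : ℂ × ℂ, repl (gl11.b01 x) (ek k [z]) ys = repl (gl11.b01 x)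
            (fun m => (z.1 + z.2) * cf k m) ys := by
          intro z x
          apply repl_congr
          intro m hm
          rw [ek_one, if_pos (by omega)]
        rw [e, e, repl_smul, repl_smul, repl_cf, repl_cf, hl]
        simp
      · have e : ∀ z x : ℂ × ℂ, repl (gl11.b01 x) (ek k [z]) ys = repl (gl11.b01 x)
            (fun m => 0) ys := by
          intro z x
          apply repl_congr
          intro m hm
          rw [ek_one, if_neg (by omega)]
        rw [e, e, repl_zero, repl_zero]
        simp [hl]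
    · intro a b m hm
      rfl
  · rw [uk_cons]
    rw [pairAlt_congr (F' := fun _ _ _ => 0), pairAlt_zero,
      pickAlt_congr (G' := fun _ _ => 0), pickAlt_zero,
      pair_congr (F' := fun _ _ _ => 0), pair_zero]
    · ring
    · intro a b m hm
      rfl
    · intro a m hm
      simp only [List.length_cons] at hm
      have e : ek k m = fun _ => 0 := by
        funext ys
        exact ek_len _ _ _ (by omega)
      rw [e, repl_zero]
    · intro a b m hm
      simp only [List.length_cons] at hm
      exact ek_len _ _ _ (by simp only [List.length_cons]; omega)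

/-! ## Structure of relative cochains -/

section struct
variable {n : ℕ} {φ : Fn (ℂ × ℂ) (ℂ × ℂ)} (h : IsCochain gl11 aa n φ)
include h

lemma sm (xs : List (ℂ × ℂ)) : SM (φ xs) :=
  ⟨fun l l' y y' => h.add1 xs l l' y y', fun l l' c y => h.smul1 xs l l' c y,
    fun l l' y y' => h.sym xs l l' y y'⟩

lemma head (x : ℂ × ℂ) (l ys : List (ℂ × ℂ)) :
    φ (x :: l) ys = (x.1 + x.2) * φ ((1, 0) :: l) ys := by
  have hx : x = (x.1 + x.2) • ((1 : ℂ), (0 : ℂ)) + (-x.2) • ((1 : ℂ), (-1 : ℂ)) := by
    ext <;> simp
  have h1 := h.add0 [] l ((x.1 + x.2) • ((1 : ℂ), (0 : ℂ))) ((-x.2) • ((1 : ℂ), (-1 : ℂ))) ys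
  have h2 := h.smul0 [] l (x.1 + x.2) ((1 : ℂ), (0 : ℂ)) ys
  have h3 := h.smul0 [] l (-x.2) ((1 : ℂ), (-1 : ℂ)) ys
  have h4 := h.horizontal _ hmem [] l ys
  simp only [List.nil_append] at h1 h2 h3 h4
  rw [← hx, h2, h3, h4] at h1
  rw [h1]
  ring

lemma two (x x' : ℂ × ℂ) (l ys : List (ℂ × ℂ)) : φ (x :: x' :: l) ys = 0 := by
  have h1 : φ (x :: x' :: l) ys = (x.1 + x.2) * φ ((1, 0) :: x' :: l) ys := head h _ _ _
  have h2 : φ ((1, 0) :: x' :: l) ys = - φ (x' :: (1, 0) :: l) ys := by
    have := h.alt [] l (1, 0) x' ys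
    simpa using this
  have h3 : φ (x' :: (1, 0) :: l) ys = (x'.1 + x'.2) * φ ((1, 0) :: (1, 0) :: l) ys := head h _ _ _
  have h4 : φ ((1, 0) :: (1, 0) :: l) ys = - φ ((1, 0) :: (1, 0) :: l) ys := by
    have := h.alt [] l (1, 0) (1, 0) ys
    simpa using this
  have h5 : φ ((1, 0) :: (1, 0) :: l) ys = 0 := by linear_combination h4 / 2
  rw [h1, h2, h3, h5]
  ring

lemma weight0 (xs : List (ℂ × ℂ)) (i j : ℕ) (hij : i ≠ j) : sv (φ xs) i j = 0 := by
  have h1 := h.invariant _ hmem xs (List.replicate i (1, 0) ++ List.replicate j (0, 1))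
  have h2 := (sm h xs).weight i j []
  simp only [List.nil_append] at h2
  rw [h2] at h1
  have h3 : repl (gl11.b00 (1, -1))
      (fun l => φ l (List.replicate i (1, 0) ++ List.replicate j (0, 1))) xs = 0 := by
    have gen : ∀ (l pre : List (ℂ × ℂ)) (ys : List (ℂ × ℂ)),
        repl (gl11.b00 (1, -1)) (fun l => φ (pre ++ l) ys) l = 0 := by
      intro l
      induction l with
      | nil => intros; rfl
      | cons a l ih =>
        intro pre ys
        simp only [repl]
        have e1 : φ (pre ++ gl11.b00 (1, -1) a :: l) ys = 0 := by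
          have : gl11.b00 (1, -1) a = (0 : ℂ) • (1, 0) := by
            rw [zero_smul]; rfl
          rw [this, h.smul0, zero_mul]
        have e2 := ih (pre ++ [a]) ys
        simp only [List.append_assoc, List.singleton_append] at e2
        rw [e1, e2, zero_add]
    have := gen xs [] (List.replicate i (1, 0) ++ List.replicate j (0, 1))
    simpa using this
  rw [h3, zero_add] at h1
  rcases mul_eq_zero.mp h1 with h4 | h4
  · exfalso
    apply hij
    have : (i : ℂ) = j := by linear_combination h4 / 2
    exact_mod_cast this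
  · exact h4

lemma val_even (xs ys : List (ℂ × ℂ)) (k : ℕ) (hy : ys.length = 2 * k) :
    φ xs ys = sv (φ xs) k k * cf k ys := by
  have := (sm h xs).expand (weight0 h xs) k ys 0 0 (by omega) (by omega)
  simpa using this

lemma val_odd (xs ys : List (ℂ × ℂ)) (hy : Odd ys.length) : φ xs ys = 0 := by
  have := (sm h xs).odd (weight0 h xs) ys.length hy ys 0 0 (by omega)
  simpa using this

end struct

/-- even degree cochains are multiples of `u^k` -/
lemma even_cochain (k : ℕ) {φ : Fn (ℂ × ℂ) (ℂ × ℂ)} (h : IsCochain gl11 aa (2 * k) φ) :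
    φ = (sv (φ []) k k) • uk k := by
  funext xs ys
  show φ xs ys = sv (φ []) k k * uk k xs ys
  rcases xs with _ | ⟨x, _ | ⟨x', xs⟩⟩
  · rw [uk_nil]
    by_cases hl : ys.length = 2 * k
    · rw [if_pos hl, val_even h [] ys k hl]
    · rw [if_neg hl, h.supp [] ys (by simpa using hl)]
      ring
  · rw [uk_cons, mul_zero]
    by_cases hl : ys.length + 1 = 2 * k
    · apply val_odd h
      rw [Nat.odd_iff]
      omega
    · exact h.supp _ _ (by simp only [List.length_cons, List.length_nil]; omega)
  · rw [uk_cons, mul_zero]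
    exact two h _ _ _ _

/-- odd degree cochains are multiples of `e u^k` -/
lemma odd_cochain (k : ℕ) {φ : Fn (ℂ × ℂ) (ℂ × ℂ)} (h : IsCochain gl11 aa (2 * k + 1) φ) :
    φ = (sv (φ [(1, 0)]) k k) • ek k := by
  funext xs ys
  show φ xs ys = sv (φ [(1, 0)]) k k * ek k xs ys
  rcases xs with _ | ⟨x, _ | ⟨x', xs⟩⟩
  · rw [ek_nil, mul_zero]
    by_cases hl : ys.length = 2 * k + 1
    · apply val_odd h
      rw [Nat.odd_iff]
      omega
    · exact h.supp _ _ (by simpa using hl)
  · rw [ek_one, head h]
    by_cases hl : ys.length = 2 * k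
    · rw [if_pos hl, val_even h [(1, 0)] ys k hl]
      ring
    · rw [if_neg hl, h.supp [(1, 0)] ys (by
        simp only [List.length_cons, List.length_nil]; omega)]
      ring
  · rw [ek_two, mul_zero]
    exact two h _ _ _ _

lemma uk_cochain (k : ℕ) : IsCochain gl11 aa (2 * k) (uk k) := by
  have hne : ∀ (l l' : List (ℂ × ℂ)) (x : ℂ × ℂ) ys, uk k (l ++ x :: l') ys = 0 := by
    intro l l' x ys
    rcases l with _ | ⟨u, l⟩ <;> rfl
  constructor
  · intro xs ys h
    rcases xs with _ | ⟨x, xs⟩
    · rw [uk_nil, if_neg]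
      intro h'
      apply h
      simp only [List.length_nil, h']
      ring
    · rfl
  · intros; simp only [hne]; ring
  · intros; simp only [hne]; ring
  · intro xs l l' y y'
    rcases xs with _ | ⟨x, xs⟩
    · simp only [uk_nil, List.length_append, List.length_cons, cf_add]
      split_ifs <;> ring
    · simp only [uk_cons]; ring
  · intro xs l l' c y
    rcases xs with _ | ⟨x, xs⟩
    · simp only [uk_nil, List.length_append, List.length_cons, cf_smul]
      split_ifs <;> ring
    · simp only [uk_cons]; ring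
  · intros; simp only [hne]; ring
  · intro xs l l' y y'
    rcases xs with _ | ⟨x, xs⟩
    · simp only [uk_nil, List.length_append, List.length_cons, cf_swap]
    · simp only [uk_cons]
  · intros; simp only [hne]
  · intro x hx xs ys
    rcases xs with _ | ⟨z, xs⟩
    · simp only [repl, zero_add]
      by_cases hl : ys.length = 2 * k
      · rw [repl_congr _ (S' := cf k), repl_cf, hl]
        · simp
        · intro m hm
          rw [uk_nil, if_pos (by omega)]
      · rw [repl_congr _ (S' := fun _ => 0), repl_zero]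
        intro m hm
        rw [uk_nil, if_neg (by omega)]
    · have e1 : repl (gl11.b00 x) (fun l => uk k l ys) (z :: xs) = 0 := by
        rw [repl_congr _ (S' := fun _ => 0), repl_zero]
        intro m hm
        rcases m with _ | ⟨w, m⟩
        · simp at hm
        · rfl
      have e2 : uk k (z :: xs) = fun _ => 0 := rfl
      rw [e1, e2, repl_zero, zero_add]

lemma d_uk (k : ℕ) : d gl11 (uk k) = 0 := by
  funext xs ys
  rw [d_apply]
  have e1 : pairAlt (fun x x' l => uk k (gl11.b00 x x' :: l) ys) xs = 0 := by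
    rw [pairAlt_congr (F' := fun _ _ _ => 0), pairAlt_zero]
    intros; rfl
  have e3 : pair (fun y y' l => uk k (gl11.b11 y y' :: xs) l) ys = 0 := by
    rw [pair_congr (F' := fun _ _ _ => 0), pair_zero]
    intros; rfl
  have e2 : pickAlt (fun x l => repl (gl11.b01 x) (uk k l) ys) xs = 0 := by
    rw [pickAlt_congr (G' := fun _ _ => 0), pickAlt_zero]
    intro a m hm
    rcases m with _ | ⟨z, m⟩
    · by_cases hl : ys.length = 2 * k
      · rw [repl_congr _ (S' := cf k), repl_cf, hl]
        · push_cast
          ring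
        · intro m hm
          rw [uk_nil, if_pos (by omega)]
      · rw [repl_congr _ (S' := fun _ => 0), repl_zero]
        intro m hm
        rw [uk_nil, if_neg (by omega)]
    · have e2 : uk k (z :: m) = fun _ => 0 := rfl
      rw [e2, repl_zero]
  rw [e1, e2, e3]
  simp

/-- `d` maps cochains to cochains and `d² = 0` -/
theorem d_cochain (n : ℕ) (φ : Fn (ℂ × ℂ) (ℂ × ℂ)) (h : IsCochain gl11 aa n φ) :
    IsCochain gl11 aa (n + 1) (d gl11 φ) ∧ ∀ xs ys, d gl11 (d gl11 φ) xs ys = 0 := by
  rcases Nat.even_or_odd' n with ⟨k, rfl | rfl⟩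
  · rw [even_cochain k h, d_smul, d_uk, smul_zero, d_zero]
    refine ⟨?_, fun _ _ => rfl⟩
    have := (ek_cochain k).smul (g := gl11) 0
    rwa [zero_smul] at this
  · rw [odd_cochain k h, d_smul, d_ek, d_smul, d_smul, d_uk, smul_zero, smul_zero]
    refine ⟨?_, fun _ _ => rfl⟩
    exact ((uk_cochain (k + 1)).smul (g := gl11) _).smul (g := gl11) _

/-- the relative complex is exact in positive degrees -/
theorem exact (n : ℕ) (φ : Fn (ℂ × ℂ) (ℂ × ℂ)) (h : IsCochain gl11 aa (n + 1) φ)
    (hd : d gl11 φ = 0) : ∃ ψ, IsCochain gl11 aa n ψ ∧ d gl11 ψ = φ := by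
  rcases Nat.even_or_odd' n with ⟨k, rfl | rfl⟩
  · -- odd degree: `φ = 0`
    have h1 := odd_cochain k h
    refine ⟨0, ?_, ?_⟩
    · have := (uk_cochain k).smul (g := gl11) 0
      rwa [zero_smul] at this
    rw [d_zero]
    rw [h1, d_smul, d_ek] at hd
    have h2 := congrFun (congrFun hd []) (List.replicate (k + 1) (1, 0) ++
      List.replicate (k + 1) (0, 1))
    have h3 : uk (k + 1) [] (List.replicate (k + 1) (1, 0) ++
      List.replicate (k + 1) (0, 1)) = 1 := by
      rw [uk_nil, if_pos (by simp; ring), cf_XY]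
    simp only [Pi.smul_apply, smul_eq_mul, Pi.zero_apply] at h2
    rw [h3] at h2
    have h4 : sv (φ [(1, 0)]) k k = 0 := by
      have h5 : (-2 * ((k : ℂ) + 1) ^ 2) ≠ 0 := by
        have : ((k : ℂ) + 1) ≠ 0 := Nat.cast_add_one_ne_zero k
        exact mul_ne_zero (by norm_num) (pow_ne_zero _ this)
      rcases mul_eq_zero.mp h2 with h6 | h6
      · exact h6
      · rw [mul_one] at h6
        exact absurd h6 h5
    rw [h1, h4, zero_smul]
  · -- even degree
    have h' : IsCochain gl11 aa (2 * (k + 1)) φ := by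
      have : 2 * (k + 1) = 2 * k + 1 + 1 := by ring
      rw [this]
      exact h
    have h1 := even_cochain (k + 1) h'
    have h5 : (-2 * ((k : ℂ) + 1) ^ 2) ≠ 0 := by
      have : ((k : ℂ) + 1) ≠ 0 := Nat.cast_add_one_ne_zero k
      exact mul_ne_zero (by norm_num) (pow_ne_zero _ this)
    refine ⟨(sv (φ []) (k + 1) (k + 1) / (-2 * ((k : ℂ) + 1) ^ 2)) • ek k,
      (ek_cochain k).smul (g := gl11) _, ?_⟩
    rw [d_smul, d_ek, smul_smul, div_mul_cancel₀ _ h5]
    exact h1.symm

/-! ## Cohomology -/

theorem H_pos (n : ℕ) (hn : 1 ≤ n) : CohomologyVanishes gl11 aa n := by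
  obtain ⟨m, rfl⟩ : ∃ m, n = m + 1 := ⟨n - 1, by omega⟩
  rintro φ ⟨h1, h2⟩
  obtain ⟨ψ, h3, h4⟩ := exact m φ h1 (by funext xs ys; exact h2 xs ys)
  exact Or.inr ⟨m, ψ, rfl, h3, fun xs ys => by rw [h4]⟩

theorem H_zero : CohomologyIsLine gl11 aa 0 := by
  refine ⟨uk 0, ⟨uk_cochain 0, fun xs ys => by rw [d_uk]; rfl⟩, ?_, ?_⟩
  · rintro (h0 | ⟨m, ψ, h, -⟩)
    · have := congrFun (congrFun h0 []) []
      simp [uk, cf] at this
    · omega
  · rintro φ ⟨h1, h2⟩
    refine ⟨sv (φ []) 0 0, Or.inl ?_⟩
    rw [sub_eq_zero]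
    exact even_cochain 0 h1

/-! ## No collapse -/

theorem not_collapse : ¬ CollapsesAtE2 gl11 aa := by
  intro hc
  have hF0 : Fil gl11 aa 0 1 (ek 0) := by
    refine ⟨ek_cochain 0, ?_⟩
    intro xs ys hl
    exact ek_len _ _ _ (by omega)
  have hd := d_ek 0
  have hF2 : Fil gl11 aa 2 2 (d gl11 (ek 0)) := by
    refine ⟨?_, ?_⟩
    · -- `d (ek 0)` is a cochain
      rw [hd]
      exact (uk_cochain 1).smul (g := gl11) _
    · intro xs ys hl
      rw [hd]
      rcases xs with _ | ⟨x, xs⟩
      · simp at hl
      · show _ * uk 1 (x :: xs) ys = 0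
        rw [uk_cons, mul_zero]
  obtain ⟨α, β, hα, hβ, hαβ⟩ := hc 2 0 1 le_rfl (ek 0) ⟨hF0, hF2⟩
  have h1 : d gl11 (ek 0) [] [(1, 0), (0, 1)] = -2 := by
    rw [hd]
    show _ * uk (0 + 1) [] [(1, 0), (0, 1)] = _
    rw [uk_nil]
    simp [cf]
  have h2 : α [] [(1, 0), (0, 1)] = 0 := hα.1.2 _ _ (by simp)
  have h3 : d gl11 β [] [(1, 0), (0, 1)] = 0 := by
    rw [d_apply]
    have h4 : ∀ x ys, β [x] ys = 0 := fun x ys => hβ.1.2 [x] ys (by simp)
    simp [pairAlt, pickAlt, pair, pick, h4]
  rw [hαβ] at h1
  simp only [h2, h3, add_zero] at h1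
  norm_num at h1

end Q8.CM
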